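import Pool.Agent.Lib_helper17.QC.Final

/-!
# The quasi-equivalence conjecture fails, already for closed subspaces of `s`

There are an infinite-dimensional closed subspace `X` of the Frechet space `s` of rapidly decreasing
sequences and two Schauder bases of `X` which are not quasi-equivalent. The definitions used in the
statement are in `Pool/Agent/Lib_helper79/QE/Defs.lean`:

* `nrm q x = (∑ |x_n|^2 (n+1)^(2q))^(1/2)`, `n = 0, 1, 2, ...`, the norms of `s`; `InS x`: `x ∈ s`;
* `Conv u x`: `u k → x` in `s`, i.e. in all these norms;
* `ClosedSub X`: `X` is a closed linear subspace of the Frechet space `s`;
* `IsBasis X f`: `f` is a Schauder basis of `X` (every `x ∈ X` has a unique expansion `∑ c_j f_j`);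
* `IsIso X T`: the linear bijection `T : X → X` is continuous together with its inverse;
* `QuasiEquiv X f g`: `f j ↦ lam j • g (σ j)` extends to an isomorphism of `X` for a bijection `σ` of
  `ℕ` and nonzero scalars `lam j`.

Sketch of the proof. `X` is the direct sum of finite blocks. In the block number `m` the two bases are
related by mutually inverse integer matrices, and the norms of the basis vectors are given by heights:
`log |x|_p` is about `M_m 4 ^ h_p(x)`. Quasi-equivalent bases would give, for some function `q` and all
late blocks, a matching of the two bases of the block such that matched vectors satisfy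
`h_p(x) ≤ h_(q(p))(y)` and `h_p(y) ≤ h_(q(p))(x)`. The blocks are constructed so that for every `q`
infinitely many of them have a set of vectors of the first basis with fewer near vectors in the second
basis. The heart is a finite combinatorial theorem (`Pool.Agent.QC.nr_exists`): there are integer
matrices `t : A × N`, `s : N × A` with `card A > M card N` such that every nonzero entry of `1 - t s`
is irreversible for one of two potentials, for any prescribed lengths.
-/

namespace Pool.Agent.Results.MP_8c9f67_an.Counterexample

open QE

/-- There are an infinite-dimensional closed subspace `X` of `s` and two Schauder bases `f`, `g` of `X`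
which are not quasi-equivalent. -/
theorem result : ∃ X : Submodule ℂ (ℕ → ℂ), ClosedSub X ∧ ¬ FiniteDimensional ℂ X ∧
    ∃ f g : ℕ → ℕ → ℂ, IsBasis X f ∧ IsBasis X g ∧ ¬ QuasiEquiv X f g :=
  Pool.Agent.QC.final

end Pool.Agent.Results.MP_8c9f67_an.Counterexample
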