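import Pool.Agent.Lib_helper79.QE.Assemble
import Pool.Agent.Lib_helper7.QE.K5

/-!
# Quasi-equivalence of all bases in closed subspaces `X` of `s` with `X ≅ s(X)`

The definitions used in the statement are in `Pool/Agent/Lib_helper79/QE/Defs.lean` (`nrm`, `InS`,
`Conv`, `ClosedSub`, `IsBasis`, `IsIso`, `QuasiEquiv`) and `Pool/Agent/Lib_helper79/QE/Nrm.lean`
(`nrmSem`, `sSub`, `N2`, `SStable`):

* `ClosedSub X`: `X` is a closed linear subspace of the Frechet space `s`;
* `nrmSem hX q`: the norm `|x|_q` restricted to `X`;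
* `sSub (nrmSem hX)`: the space `s(X)` of all sequences `(ξ_i)` in `X` with
  `∑_i |ξ_i|_q^2 (i+1)^(2q) < ∞` for all `q`, and `N2 (nrmSem hX) q ξ` is the square root of this sum;
* `SStable (nrmSem hX)`: there is a linear bijection `s(X) → X` which is bounded in both directions
  for these norms, i.e. `X` and `s(X)` are isomorphic Frechet spaces;
* `IsBasis X f`, `QuasiEquiv X f g`: `f` is a Schauder basis of `X`; `f` and `g` are quasi-equivalent.
-/

namespace Pool.Agent.Results.MP_8c9f67_an.SStable

open QE

/-- Let `X` be a closed subspace of `s` which is isomorphic to the space `s(X)` of rapidly decreasing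
sequences in `X`. Then any two Schauder bases of `X` are quasi-equivalent. -/
theorem result (X : Submodule ℂ (ℕ → ℂ)) (hX : ClosedSub X) (hS : SStable (nrmSem hX))
    (f g : ℕ → ℕ → ℂ) (hf : IsBasis X f) (hg : IsBasis X g) : QuasiEquiv X f g := by
  obtain ⟨c, hc⟩ := basis_AB hX hf
  obtain ⟨b, d, hb, hr⟩ := k5_rich_pr (k1_gr_proof hX) hc hS
  exact all_of_rich hX hb hr hf hg

end Pool.Agent.Results.MP_8c9f67_an.SStable
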